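import Pool.Agent.U21.TL.DC3

/-!
# Decoupling along paths, and periodic insertions, for the complexified volume conjecture along the
odd integers

The definitions are in `Pool.Agent.TH563.UV.Arb` (weighted planar trees with crossing circles, the
coloured Jones polynomial of the arborescent link of a tree from the R-matrix of `U_q(sl_2)`, angle
structures of its complement and their volume), `Pool.Agent.N561.EK.ArbE` (`Twisted`, `AllTwisted`),
`Pool.Agent.TH563.CV.Dil` (the dilogarithm), `Pool.Agent.TH563.CV.Flat` (flattenings, the extended
Rogers dilogarithm, and Neumann's sum for the complex volume), `Pool.Agent.TH563.CV.CS` (`HasCS`)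
and `Pool.Agent.U21.TL.DC3` (`hang`, `chain`, `repeated`, `Broad`).
-/

set_option autoImplicit false

namespace Pool.Agent.Results.MP_b30479_gt.DecouplingOdd

open Finset Filter Topology Pool.Agent.TH563.UV.Arb Pool.Agent.TH563.CV
open Pool.Agent.N561.ArbK (AllTwisted)
open Pool.Agent.U21.TL

/-- The filter of the odd integers tending to infinity. -/
def oddTop : Filter ℕ := atTop ⊓ 𝓟 {n | Odd n}

/-- `V + i C` is the complex volume of the complement of the link of `t`: `V` is the maximal volume of
the angle structures, and the numbers `C'` with `HasCS t V C'` (that is, `i (V + i C')` is, modulo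
`π²`, the sum of the extended Rogers dilogarithms over the ideal tetrahedra of the complement, with
the shapes of an angle structure of volume `V` and with a flattening) are the numbers `C + k π²`. -/
def ComplexVolume (t : Tree) (V C : ℝ) : Prop :=
  IsGreatest {W : ℝ | ∃ y : AngleTree, y.tree = t ∧ IsAngle y ∧ vol y = W} V ∧
    ∀ C' : ℝ, HasCS t V C' ↔ ∃ k : ℤ, C' = C + k * Real.pi ^ 2

/-- The complexified volume conjecture along the odd integers for the link of `t`, with the volume
`V`: for all framings `e` and signs `f`, with `a_n = kashaev e f t n`, `a_n ≠ 0` for all large odd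
`n`, and `a_{n+2} / a_n` tends to `exp ((V + i C) / π)` along odd `n` for a representative `C` of the
Chern-Simons invariant. -/
def AlongOdd (t : Tree) (V : ℝ) : Prop :=
  ∀ e f : ℤ, (∀ᶠ n : ℕ in oddTop, kashaev e f t n ≠ 0) ∧
    ∃ C : ℝ, HasCS t V C ∧
      Tendsto (fun n : ℕ => kashaev e f t (n + 2) / kashaev e f t n) oddTop
        (𝓝 (Complex.exp ((V + Complex.I * C) / Real.pi)))

/-- The number `z` is the complex volume `V + i C` of the link of `t`, for a representative `C`, and
the complexified volume conjecture holds for this link along the odd integers. -/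
def OddLimit (t : Tree) (z : ℂ) : Prop :=
  ∃ V C : ℝ, z = (V : ℂ) + Complex.I * C ∧ ComplexVolume t V C ∧ AlongOdd t V

/-- **Decoupling along paths, and periodic insertions.**  `chain X L Y` is the planar tree in which
the roots of `X`, of the trees of the list `L`, and of `Y` are joined by edges, one after the other
(every edge of a tree, and every path, is of this kind, with `L` the list of the parts of the tree
which hang at the vertices of the path).  There is a choice `Z t` of the complex volumes of the links
of all the trees `t` with at least one edge in which every vertex has a crossing circle, or a weight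
of absolute value at least `16`, or at least `32` neighbours, such that the complexified volume
conjecture holds for `t` along the odd integers with the complex volume `Z t`, and such that for
every `B ≥ 256` (the vertices of the paths are assumed to satisfy `n² + a² ≥ B` or to have a crossing
circle, `Broad B L`; for `B = 256` this is always the case):

* the two ends of a path with `|L|` inner vertices interact by at most `(6/5) B / B ^ |L|`:
  `|Z(X L Y) - Z(X L Y') - Z(X' L Y) + Z(X' L Y')| ≤ (6/5) B / B ^ |L|`, for all ends;
* for every nonempty list `c` there are a complex number `v` and complex numbers `β₁ X`, `β₂ Y` with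
  `|Z(X c^k Y) - (k v + β₁ X + β₂ Y)| ≤ (5/4) B / B ^ (k |c|)` for all `k ≥ 0` and all ends `X`, `Y`;
  the number `v` depends only on `c`. -/
theorem result : ∃ Z : Tree → ℂ,
    (∀ t : Tree, AllTwisted t → 1 ≤ t.children → OddLimit t (Z t)) ∧
    (∀ (X Y : Tree) (L : List Tree), AllTwisted (chain X L Y) → Broad 256 L) ∧
    ∀ B : ℝ, 256 ≤ B →
      (∀ (X X' Y Y' : Tree) (L : List Tree), Broad B L → AllTwisted (chain X L Y) →
        AllTwisted (chain X' L Y') →
        ‖Z (chain X L Y) - Z (chain X L Y') - Z (chain X' L Y) + Z (chain X' L Y')‖ ≤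
          6 / 5 * B / B ^ L.length) ∧
      ∀ c : List Tree, c ≠ [] → Broad B c → ∃ (v : ℂ) (β₁ β₂ : Tree → ℂ),
        ∀ X Y : Tree, AllTwisted (chain X c Y) → ∀ k : ℕ,
          AllTwisted (chain X (repeated c k) Y) ∧
          ‖Z (chain X (repeated c k) Y) - (k * v + β₁ X + β₂ Y)‖ ≤
            5 / 4 * B / B ^ (k * c.length) := by
  have hodd : oddTop ≤ atTop := inf_le_left
  have hpi : (Real.pi : ℂ) ≠ 0 := by exact_mod_cast Real.pi_ne_zero
  refine ⟨cz, fun t ht hc => ?_, fun X Y L h => broad_of h, fun B hB => ⟨fun X X' Y Y' L hL h h' => ?_, fun c hc hL => ?_⟩⟩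
  · obtain ⟨⟨V, C, h1, h2, h3, h4⟩, -⟩ := cz_spec ht hc
    refine ⟨V, C, h1, ⟨h2, h3⟩, fun e f => ?_⟩
    obtain ⟨C', y, hC, hy, h⟩ := h4 e f
    obtain ⟨r1, _, r3, r4, _⟩ := Pool.Agent.W460.AX.rat _ _ y hy h
    refine ⟨hodd r1, C', hC, ?_⟩
    have e1 : ((V : ℂ) + Complex.I * C') / Real.pi =
        2 * (((V : ℂ) + Complex.I * C') / (2 * Real.pi)) := by
      field_simp
    rw [e1]
    exact r3.mono_left hodd
  · refine (dec (by linarith) hL h h').trans (le_of_eq ?_)
    rw [one_div, inv_pow]
    ring
  · obtain ⟨v, β₁, β₂, h⟩ := periodic hB hc hL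
    refine ⟨v, β₁, β₂, fun X Y hXY k => ?_⟩
    obtain ⟨g1, g2⟩ := h X Y hXY k
    refine ⟨g1, ?_⟩
    have e1 : (k * v + β₁ X + β₂ Y : ℂ) = k * v + (β₁ X + β₂ Y) := by ring
    rw [e1]
    refine g2.trans (le_of_eq ?_)
    rw [one_div, inv_pow, inv_pow, ← pow_mul, mul_comm c.length k]
    ring

end Pool.Agent.Results.MP_b30479_gt.DecouplingOdd
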