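import Pool.Agent.Results.MP_b30479_gt.PolyhedralLinksOdd
import Pool.Agent.U220.RA.Lists

/-!
# The complexified volume conjecture along the odd integers in two-parameter families of links, and the
# order of the loss of volume

The links are those of `Pool.Agent.Results.MP_b30479_gt.PolyhedralLinksOdd`, and all definitions not
given here are in that file: the closures of `(s_1 s_2 s_1)^{2 m} T_1 U_1 ⋯ T_k U_k`, where `T_i`,
`U_i` are the (algebraic) tangles of `2 k` weighted planar trees, and `m` is an integer; `kashaev` is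
the Kashaev invariant with a framing and a sign, and `ComplexVolume` says that `V + i C` is the
complex volume of the complement: `V` is the maximal volume of the angle structures of an ideal
decomposition, and `C` is given by Neumann's formula.

Here the trees may also have small vertices, and we consider the family `L_{m, r}`, the closure of
`(s_1 s_2 s_1)^{2 m} (T_1 U_1 ⋯ T_k U_k)^r`.  Let `A` be the axis of the ring (the braid axis), and
let `V` be the volume of the complement of `L_{0, 1} ∪ A`.  The complement of `L_{m, r} ∪ A` is the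
cyclic covering of degree `r` of that of `L_{0, 1} ∪ A`, and `L_{m, r}` is obtained from it by filling
the cusp of `A`.  The theorem gives the complexified asymptotics of the invariants of `L_{m, r}` along
the odd integers, and says that the growth rate `V'` satisfies
`c r / (r² + m²) ≤ r V - V' ≤ C r / (r² + m²)`. -/

set_option autoImplicit false

namespace Pool.Agent.Results.MP_b30479_gt.FillingAsymptoticsOdd

open Finset Filter Topology
open Pool.Agent.Results.MP_b30479_gt.PolyhedralLinksOdd

/-- The small vertices (`n` neighbours, weight `a`, no crossing circle): `a ≤ 0` and `n + |a| ≥ 4`,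
or `n = 3` and `a = 0`, or `n = 1` and `a = -2` (a clasp), or `a > 0` and `n + a ≥ 5`. -/
def Small (n : ℕ) (a : ℤ) : Prop :=
  (a ≤ 0 ∧ 4 ≤ (n : ℤ) + |a|) ∨ (n = 3 ∧ a = 0) ∨ (n = 1 ∧ a = -2) ∨ (0 < a ∧ 5 ≤ (n : ℤ) + a)

/-- Every vertex other than the root is large (`Tree.Big`: `K² ≤ n² + a²`) or small, and of two
neighbouring vertices at least one is large; `g` is the statement that the root is large. -/
def FineBelow (K : ℕ) : Prop → Tree → Prop
  | _, .single _ _ => True
  | g, .join t c => FineBelow K g t ∧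
      FineBelow K (Tree.Big K c.circle (c.children + 1) c.weight) c ∧
      (Tree.Big K c.circle (c.children + 1) c.weight ∨
        (g ∧ c.circle = false ∧ Small (c.children + 1) c.weight))

/-- The trees admitted in the ring: the root has no crossing circle, at most `D` children and a
weight of absolute value at least `M`; the other vertices are large or small, no two small vertices
being neighbours. -/
def Admissible (K D M : ℕ) (t : Tree) : Prop :=
  t.circle = false ∧ t.children ≤ D ∧ (M : ℤ) ≤ |t.weight| ∧ FineBelow K True t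

/-- The ring `T_1 U_1 ⋯ T_k U_k` repeated `r` times. -/
def again (r : ℕ) (ts : List (Tree × Tree)) : List (Tree × Tree) := (List.replicate r ts).flatten

/-- Angle structures of the complement of the closure of `T_1 U_1 ⋯ T_k U_k` together with its axis:
as `IsAngle`, but the axis is a cusp, and the rotation angles of the two basis curves on its boundary
torus (longitude, and meridian of the ring) are `0`, as for the complete structure. -/
structure IsAxisAngle (ts : List (Tree × Tree)) (y : ℕ → AngleTree) (f g F G : ℕ → Angles) :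
    Prop where
  trees : ∀ j < 2 * ts.length, (y j).tree = ringTree ts j ∧ Below (y j)
  positive : ∀ j < 2 * ts.length,
    (f j).Positive ∧ (g j).Positive ∧ (F j).Positive ∧ (G j).Positive
  diagonals : ∀ j < 2 * ts.length, (f j).b + (f j).c' + ((g j).b + (g j).c') = 2 * Real.pi ∧
    (F j).b + (F j).c' + ((G j).b + (G j).c') = 2 * Real.pi
  roots : ∀ j < 2 * ts.length, RingCondition (y ((j + 1) % (2 * ts.length))).weight
    (y ((j + 1) % (2 * ts.length))).edges
    (f j) (g j) (F j) (G j) (f ((j + 1) % (2 * ts.length))) (g ((j + 1) % (2 * ts.length)))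
    (F ((j + 1) % (2 * ts.length))) (G ((j + 1) % (2 * ts.length)))
  axisLongitude : longitude (f 0) (g 0) (F 0) (G 0) = 0
  axisMeridian : ∑ j ∈ range (2 * ts.length), meridianPart (f j) (g j) (F j) (G j) = 0

/-- `V` is the maximal volume of the angle structures of the complement of the closure of
`T_1 U_1 ⋯ T_k U_k` together with its axis. -/
def IsAxisVolume (ts : List (Tree × Tree)) (V : ℝ) : Prop :=
  IsGreatest {W : ℝ | ∃ (y : ℕ → AngleTree) (f g F G : ℕ → Angles),
    IsAxisAngle ts y f g F G ∧ vol ts y f g F G = W} V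

/-! ### Bridges -/

section Bridges

open Pool.Agent.W719.AR (Fl)
open Pool.Agent.TH563.UV (Tb AB op)
open Pool.Agent.Y481.DR (tj rv JD opD DAng dVol)
open Pool.Agent.Y482.DX (PC PAx)
open Pool.Agent.W719.AX (EXY)
open Pool.Agent.N561 (OkT2)
open Pool.Agent.U220.RA (many Wit)

lemma fineBelow_ok {K : ℕ} {K' : ℝ} (h0 : 0 < K') (hK : K' ≤ K) (t : Tree) :
    ∀ (g : Prop) (gb : Bool), (g → gb = true) → FineBelow K g t →
      OkT2 Pool.Agent.N566.PS.TyS K' gb (toTb t) := by
  induction t with
  | single b a => intro g gb _ _; trivial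
  | join t c iht ihc =>
    rintro g gb hg ⟨h1, h2, h3⟩
    refine ⟨iht g gb hg h1, ?_⟩
    rw [bl_to, nc_to, wt_to]
    by_cases hbig : Tree.Big K c.circle (c.children + 1) c.weight
    · exact Or.inl ⟨big_to h0 hK hbig, ihc _ true (fun _ => rfl) h2⟩
    · rcases h3 with h3 | ⟨h3, h4⟩
      · exact absurd h3 hbig
      · exact Or.inr ⟨hg h3, h4, ihc _ false (fun h => absurd h hbig) h2⟩

lemma ok_ofV {K M : ℝ} (hK : 0 < K) {D : ℕ} {ts : List (Tree × Tree)}
    (h : ∀ p ∈ ts, Admissible ⌈K⌉₊ D ⌈M⌉₊ p.1 ∧ Admissible ⌈K⌉₊ D ⌈M⌉₊ p.2) :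
    Pool.Agent.N566.RX.OkRV Pool.Agent.N566.PS.TyS K D M (toTs ts) := by
  constructor
  · intro q hq
    obtain ⟨p, hp, rfl⟩ := List.mem_map.1 hq
    simp only [bl_to]
    exact ⟨(h p hp).1.1, (h p hp).2.1⟩
  · intro q hq
    obtain ⟨p, hp, rfl⟩ := List.mem_map.1 hq
    obtain ⟨⟨_, a2, a3, a4⟩, ⟨_, b2, b3, b4⟩⟩ := h p hp
    simp only [nc_to, wt_to]
    exact ⟨fineBelow_ok hK (Nat.le_ceil K) _ _ _ (fun _ => rfl) a4,
      fineBelow_ok hK (Nat.le_ceil K) _ _ _ (fun _ => rfl) b4, a2, b2,
      bound_of a3, bound_of b3⟩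

lemma toTs_again (r : ℕ) (ts : List (Tree × Tree)) : toTs (again r ts) = many r (toTs ts) := by
  unfold toTs again many
  rw [List.map_flatten, List.map_replicate]

lemma axis_iff (ts : List (Tree × Tree)) (y : ℕ → AngleTree) (f g F G : ℕ → Angles) :
    (Pool.Agent.Y482.DX.PAx (2 * ts.length)
      fun j => tj (toTs ts) (rv (2 * ts.length) j)) (fun j => toAB (y j)) (fun j => toFl (f j))
      (fun j => toFl (g j)) (fun j => toFl (F j)) (fun j => toFl (G j)) ↔
      IsAxisAngle ts y f g F G := by
  constructor
  · rintro ⟨h0, h1⟩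
    refine ⟨?_, h1.pos, h1.diag, ?_, h1.long, h1.mer⟩
    · intro j hj
      refine ⟨toTb_inj _ _ ?_, ?_⟩
      · rw [← shape_to, h0 j hj]
        beta_reduce
        rw [tj_to]
        rfl
      · rw [← below_to]
        exact h1.tree j hj
    · intro j hj
      have h3 := h1.vert j hj
      rw [← ring_to, ← edges_to, ← weight_to]
      exact h3
  · intro h1
    refine ⟨?_, ⟨h1.positive, h1.diagonals, ?_, ?_, h1.axisLongitude, h1.axisMeridian⟩⟩
    · intro j hj
      beta_reduce
      rw [shape_to, (h1.trees j hj).1, tj_to]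
      rfl
    · intro j hj
      exact (below_to _).2 (h1.trees j hj).2
    · intro j hj
      have h3 := (ring_to _ _ _ _ _ _ _ _ _ _).2 (h1.roots j hj)
      rw [← edges_to, ← weight_to] at h3
      exact h3

lemma axis_volume (ts : List (Tree × Tree)) {V : ℝ} (hV :
    IsGreatest {W : ℝ | ∃ (y : ℕ → AB) (f g F G : ℕ → Fl),
      PAx (2 * (toTs ts).length) (fun j => tj (toTs ts) (rv (2 * (toTs ts).length) j)) y f g F G ∧
      dVol (2 * (toTs ts).length) y f g F G = W} V) : IsAxisVolume ts V := by
  have e : {W : ℝ | ∃ (y : ℕ → AngleTree) (f g F G : ℕ → Angles), IsAxisAngle ts y f g F G ∧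
      vol ts y f g F G = W} =
      {W : ℝ | ∃ (y : ℕ → AB) (f g F G : ℕ → Fl),
        PAx (2 * (toTs ts).length) (fun j => tj (toTs ts) (rv (2 * (toTs ts).length) j)) y f g F G ∧
        dVol (2 * (toTs ts).length) y f g F G = W} := by
    rw [toTs_len]
    ext W
    constructor
    · rintro ⟨y, f, g, F, G, k1, k2⟩
      exact ⟨fun j => toAB (y j), fun j => toFl (f j), fun j => toFl (g j),
        fun j => toFl (F j), fun j => toFl (G j), (axis_iff ts y f g F G).2 k1, by
          rw [vol_ring]; exact k2⟩
    · rintro ⟨y, f, g, F, G, k1, k2⟩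
      refine ⟨fun j => ofAB (y j), fun j => ofFl (f j), fun j => ofFl (g j),
        fun j => ofFl (F j), fun j => ofFl (G j), (axis_iff ts _ _ _ _ _).1 ?_, ?_⟩
      · simp only [toAB_of]
        exact k1
      · rw [← vol_ring]
        simp only [toAB_of]
        exact k2
  unfold IsAxisVolume
  rw [e]
  exact hV

end Bridges

/-- **The complexified volume conjecture along the odd integers in two-parameter families of links,
and the order of the loss of volume.**  There is an absolute constant `K`, and for all `D` and `k ≥ 1`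
there is an `M` such that the following holds for all lists `ts` of `2 k` weighted trees whose roots
have weights of absolute value at least `M` and at most `D` children, and whose other vertices (`n`
neighbours, weight `a`) are large, that is `K² ≤ n² + a²` or there is a crossing circle, or small, that
is `a ≤ 0` and `n + |a| ≥ 4`, or `n = 3` and `a = 0`, or `n = 1` and `a = -2`, or `a > 0` and
`n + a ≥ 5`, where no two small vertices are neighbours.  Let `L_{m, r}` be the closure of
`(s_1 s_2 s_1)^{2 m} (T_1 U_1 ⋯ T_k U_k)^r`, and `L*_{m, r}` its mirror image.  There are a real number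
`V`, the maximal volume of the angle structures of the complement of `L_{0, 1}` together with its axis
(by Casson and Rivin, its hyperbolic volume), and positive constants `c`, `C` such that for all
`r ≥ 1`, `m ≥ 0`, `(r k, m) ≠ (1, 0)`,
(1) the coloured Jones polynomials of `L_{m, r}` and `L*_{m, r}` are continuous at `v_N`;
(2) there are `V'`, `C'` such that `V' + i C'` is the complex volume of the complement of `L_{m, r}`,
and `c r / (r² + m²) ≤ r V - V' ≤ C r / (r² + m²)`;
(3) along the odd integers `n`, with `a_n = J_n(L_{m, r})`, for all framings `e` and signs `f`, and with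
the representative `C'' = C' + 2 π² (e + f)` of the Chern-Simons invariant: `a_n ≠ 0` for large `n`,
`2 π log |a_n| / n → V'`, `a_{n+2} / a_n → exp ((V' + i C'') / π)`, and
`a_n / (n^{3/2} exp (n (V' + i C'') / 2 π))` has a limit other than `0`; and the same holds for
`L*_{m, r}` with `-C'` instead of `C'`. -/
theorem result : ∃ K : ℕ, ∀ D k : ℕ, 1 ≤ k → ∃ M : ℕ, ∀ ts : List (Tree × Tree),
    ts.length = k → (∀ p ∈ ts, Admissible K D M p.1 ∧ Admissible K D M p.2) →
    ∃ V c C : ℝ, 0 < c ∧ 0 < C ∧ IsAxisVolume ts V ∧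
      ∀ r m : ℕ, 1 ≤ r → ¬ (r * k = 1 ∧ m = 0) →
        (∀ N : ℕ, 1 ≤ N → ContinuousAt (jones m (again r ts) N) (root N) ∧
          ContinuousAt (jones (-m) (mirror (again r ts)) N) (root N)) ∧
        ∃ V' C' : ℝ, ComplexVolume m (again r ts) V' C' ∧
          c * ((r : ℝ) / ((r : ℝ) ^ 2 + (m : ℝ) ^ 2)) ≤ r * V - V' ∧
          r * V - V' ≤ C * ((r : ℝ) / ((r : ℝ) ^ 2 + (m : ℝ) ^ 2)) ∧
          ∀ e f : ℤ, Asymptotics (kashaev e f m (again r ts)) V'
              (C' + 2 * Real.pi ^ 2 * (e + f)) ∧
            Asymptotics (kashaev e f (-m) (mirror (again r ts))) V'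
              (-C' + 2 * Real.pi ^ 2 * (e + f)) := by
  obtain ⟨K, hK, hcl, hax⟩ := Pool.Agent.U220.RA.allW Pool.Agent.N566.RX.truxv_s
  refine ⟨⌈K⌉₊, fun D k hk => ?_⟩
  obtain ⟨M1, hM1⟩ := hax D k hk
  obtain ⟨M2, hM2⟩ := hcl D
  refine ⟨⌈max M1 M2⌉₊, fun ts hlen hok => ?_⟩
  have hok' := ok_ofV hK hok
  have hl : (toTs ts).length = ts.length := toTs_len ts
  obtain ⟨-, V, hW⟩ := hM1 (toTs ts) (by rw [hl, hlen]) (hok'.mono (le_max_left _ _))
  obtain ⟨c, C, hc, hC, hcC⟩ := Pool.Agent.U220.RA.asymp_many (by omega) hW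
  refine ⟨V, c, C, hc, hC, axis_volume ts (hW.max (by omega)).1, fun r m hr hkm =>
    ⟨fun N hN => ⟨cont _ _ hN, cont _ _ hN⟩, ?_⟩⟩
  have hlr : (Pool.Agent.U220.RA.many r (toTs ts)).length = r * k := by
    rw [Pool.Agent.U220.RA.many_len, hl, hlen]
  have hne : Pool.Agent.U220.RA.many r (toTs ts) ≠ [] := by
    intro h0
    rw [h0] at hlr
    have := Nat.mul_pos hr hk
    simp at hlr
    omega
  obtain ⟨V', C', h1, h2⟩ := hM2 (Pool.Agent.U220.RA.many r (toTs ts)) m hne
    (by rw [hlr]; exact hkm)
    (Pool.Agent.U220.RA.OkRV_many r (hok'.mono (le_max_right _ _)))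
  obtain ⟨h3, h4⟩ := hcC r m V' hr h1.vol
  push_cast at h3 h4
  refine ⟨V', C', complexVolume_of ?_, h3, h4, fun e f => ⟨?_, ?_⟩⟩
  · rw [← toTs_len (again r ts), toTs_again]
    exact h1
  · obtain ⟨⟨y, hy, hE⟩, -⟩ := h2 e f
    rw [← toTs_again, ← (funext fun N => kashaev_eq e f m (again r ts) N :
      kashaev e f m (again r ts) = fun N => _)] at hE
    exact asymptotics_of hy hE
  · obtain ⟨-, y, hy, hE⟩ := h2 e f
    have e1 : kashaev e f (-m) (mirror (again r ts)) = fun N => Pool.Agent.Y482.DX.fr e f N *
        Pool.Agent.Y481.DR.JD (Pool.Agent.Y482.DX.mir (Pool.Agent.U220.RA.many r (toTs ts))) (-m) N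
          (Pool.Agent.W711.HT.vN N) := by
      funext N
      rw [kashaev_eq, mirror_ts, toTs_again]
      rfl
    refine asymptotics_of hy ?_
    rw [e1]
    exact hE

end Pool.Agent.Results.MP_b30479_gt.FillingAsymptoticsOdd
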