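import Pool.Agent.H320R.Kash

/-!
# Kashaev invariants along the odd integers

The complexified volume conjecture along the odd integers `N` needs `a_N = J_N(L; exp (2 π i / N)) ≠ 0`
for all large odd `N`, and it needs the growth of `a_N` and of `a_(N+2) / a_N`.

(1) For every link `L`, closure of a braid word with `ℓ` letters on `n + 1` strands, and every odd `N ≥ 2`,
`a_N = 0` or `|a_N| ≥ exp (-C N log^2 N)`, and then `|log |a_N|| ≤ 2 C N log^2 N`; `C = 2 n + 27 ℓ`.
(2) For every knot the set of the odd `N` with `a_N = 0` is sparse, it has no prime powers, and for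
almost all odd `N` both `a_N` and `a_(N+2)` are not zero and `|log |a_(N+2)/a_N|| ≤ 4 C (N+2) log^2 (N+2)`.
(3) Zero-one law: a polynomial relation with integer coefficients between `q` and the invariants of knots
`K_1, …, K_s` that holds at `q = exp (2 π i / N)` for more than sparsely many odd `N` holds for all `N`,
even ones too, at all primitive `N`-th roots of unity `q`.

The coloured Jones polynomial and the proofs are from `Pool.Agent.H320R.Kash` and `Pool/Agent/U476`
(helper476).
-/

set_option autoImplicit false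

namespace Pool.Agent.Results.MP_b30479_gt.NonvanishingOdd

open Pool.Agent.H320R.Kash

theorem result :
    (∀ (n : ℕ) (w : List (ℕ × Bool)) (N : ℕ), 2 ≤ N → Odd N → kashaev n w N ≠ 0 →
      Real.exp (-size n w N) ≤ ‖kashaev n w N‖ ∧ |Real.log ‖kashaev n w N‖| ≤ 2 * size n w N) ∧
    (∀ (n : ℕ) (w : List (ℕ × Bool)), IsKnot n w →
      Sparse {N | Odd N ∧ kashaev n w N = 0} ∧
      (∀ p a : ℕ, p.Prime → Odd p → kashaev n w (p ^ a) ≠ 0) ∧
      ∃ X₀ : ℕ, ∀ X : ℕ, X₀ ≤ X →
        (count {N | Odd N ∧ N ∈ Exceptional n w} X : ℝ) ≤ few X + few (X + 2)) ∧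
    ∀ (s : ℕ) (K : Fin s → ℕ × List (ℕ × Bool)), (∀ i, IsKnot (K i).1 (K i).2) →
      ∀ P : MvPolynomial (Option (Fin s)) ℤ,
        (∀ N : ℕ, 1 ≤ N → ∀ v ∈ primitiveRoots (2 * N) ℂ, rel K P N v = 0) ∨
          Sparse {N | Odd N ∧ relAt K P N = 0} := by
  refine ⟨fun n w N hN _ hne => links' hN n w hne, fun n w hw => ⟨?_, ?_, ?_⟩, fun s K hK P => ?_⟩
  · exact (knot_zeros hw).mono fun N hN => hN.2
  · intro p a hp _
    exact knot_prime_power hw p a hp
  · obtain ⟨X₀, h⟩ := knot_ratios hw
    refine ⟨X₀, fun X hX => le_trans ?_ (h X hX)⟩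
    have h9 : count {N | Odd N ∧ N ∈ Exceptional n w} X ≤ count (Exceptional n w) X :=
      count_mono (fun N hN => hN.2) X
    exact_mod_cast h9
  · rcases (relations K hK P).1 with h | h
    · exact Or.inl h
    · exact Or.inr (h.mono fun N hN => hN.2)

end Pool.Agent.Results.MP_b30479_gt.NonvanishingOdd
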