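import Pool.Agent.U909.CK.Comp
import Pool.Agent.H756R3.J.Cont
import Pool.Agent.H105R3.JSanCurl
import Pool.Agent.H309R4.Jones.SanU
import Pool.Agent.H550R3.Jones.SanSkein699

/-!
# Kashaev invariants and volume of closed 3-braids with axis, uniformly in the exponents (odd `N`)

For a 3-braid `w` let `L(w)` be the link which consists of the closure of `w` and of the braid axis,
written as the closure of a braid on four strands: strand number `0` runs once around the other
three strands (this is the axis) and the last three strands carry `w`.  The words here are words in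
`s_2` and `s_1⁻¹`, given by their syllables: `x = a_1^{e_1} a_2^{e_2} ⋯ a_s^{e_s}` with letters
`a_i ∈ {s_2, s_1⁻¹}` and exponents `e_i ≥ 1`.  The dual word `w*` is `w` read backwards with the two letters
exchanged.  For `w = x (s_2 s_1⁻¹)^n y` the growth rates of the Kashaev invariants of `L((w w*)^k)` are
compared with the volume.  The error depends on the number of syllables of `x` and `y`, but neither on the
exponents nor on `n`.

The invariants are defined from the R-matrix of `U_q(sl_2)`, with `v = q^{1/2}` and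
`{k} = v^k - v^{-k}`.  The `N`-coloured Jones polynomial `cjones N n w v` of the closure of a braid
word `w` on `n + 1` strands is the entry at the highest weight vector of the partial quantum trace
(over all strands but the first one) of the operator of `w` on the tensor power of the
`N`-dimensional irreducible representation.  The crossings carry the framing correction and the
unknot has value `1`.  The Kashaev invariant is its value at `v = exp (π i / N)`, that is
`q = exp (2 π i / N)`.

The complement of the closure of a cyclic word of `m` letters `s_1⁻¹`, `s_2` (both occur) with its axis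
is the bundle over the circle whose fibre is the sphere with four punctures and whose monodromy is the
corresponding product of `L` and `R`.  It has a layered ideal triangulation with one layer of two
ideal tetrahedra with the same dihedral angles between any two consecutive letters; a layer is a
hinge layer if the two letters are different.  Its angle structures are described by functions `w` on
the layers as in Gueritaud's work on once-punctured torus bundles.
-/

set_option autoImplicit false

namespace Pool.Agent.Results.MP_b30479_gt.UniformVolumeOdd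

open Finset Filter Topology

/-- `{n} = v^n - v^{-n}` -/
noncomputable def br (v : ℂ) (n : ℤ) : ℂ := v ^ n - v ^ (-n)

/-- `{n}! = {1} {2} ⋯ {n}` -/
noncomputable def brf (v : ℂ) (n : ℕ) : ℂ := ∏ j ∈ range n, br v ((j : ℤ) + 1)

/-- The positive crossing: the R-matrix of `U_q(sl_2)` on `V_N ⊗ V_N`, `V_N` with basis
`e_0, …, e_{N-1}`, times the framing factor `v^{-(N^2-1)/2}`; `crossP N v p q` is the coefficient
of `e_{p.1} ⊗ e_{p.2}` in the image of `e_{q.1} ⊗ e_{q.2}`:
`e_i ⊗ e_j ↦ ∑_n v^{-(N-1)(1+i+j) + 2(i-n)(j+n) + n(n-1)/2}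
({j+n}! / ({j}! {n}!)) ∏_{t<n} {N-i+t} e_{j+n} ⊗ e_{i-n}`. -/
noncomputable def crossP (N : ℕ) (v : ℂ) : Matrix (Fin N × Fin N) (Fin N × Fin N) ℂ :=
  fun p q => if (p.1 : ℕ) + p.2 = q.1 + q.2 ∧ (q.2 : ℕ) ≤ p.1 then
    v ^ (-((N : ℤ) - 1) * (1 + (q.1 : ℕ) + (q.2 : ℕ)) + 2 * (p.1 : ℕ) * (p.2 : ℕ)) *
      v ^ (((p.1 : ℕ) - q.2) * ((p.1 : ℕ) - q.2 - 1) / 2) *
      (brf v p.1 / (brf v q.2 * brf v ((p.1 : ℕ) - q.2))) *
      ∏ t ∈ range ((p.1 : ℕ) - q.2), br v ((N : ℤ) - (q.1 : ℕ) + t)
    else 0

/-- The negative crossing, inverse of `crossP N v`: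
`e_i ⊗ e_j ↦ ∑_n (-1)^n v^{(N-1)(1+i+j) - 2ij - n(n-1)/2}
({i+n}! / ({i}! {n}!)) ∏_{t<n} {N-j+t} e_{j-n} ⊗ e_{i+n}`. -/
noncomputable def crossN (N : ℕ) (v : ℂ) : Matrix (Fin N × Fin N) (Fin N × Fin N) ℂ :=
  fun p q => if (p.1 : ℕ) + p.2 = q.1 + q.2 ∧ (q.1 : ℕ) ≤ p.2 then
    (-1) ^ ((p.2 : ℕ) - q.1) *
      v ^ (((N : ℤ) - 1) * (1 + (q.1 : ℕ) + (q.2 : ℕ)) - 2 * (q.1 : ℕ) * (q.2 : ℕ)) /
      v ^ (((p.2 : ℕ) - q.1) * ((p.2 : ℕ) - q.1 - 1) / 2) *
      (brf v p.2 / (brf v q.1 * brf v ((p.2 : ℕ) - q.1))) *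
      ∏ t ∈ range ((p.2 : ℕ) - q.1), br v ((N : ℤ) - (q.2 : ℕ) + t)
    else 0

/-- The braid generator `s_k` on `n` strands (it acts on the strands number `k` and `k + 1`,
counted from `0`) by the crossing matrix `A`. -/
def gen {ι : Type} [DecidableEq ι] (A : Matrix (ι × ι) (ι × ι) ℂ) (n k : ℕ) :
    Matrix (Fin n → ι) (Fin n → ι) ℂ :=
  fun s t => if h : k + 1 < n then
    (if ∀ j : Fin n, (j : ℕ) ≠ k → (j : ℕ) ≠ k + 1 → s j = t j then
      A (s ⟨k, by omega⟩, s ⟨k + 1, h⟩) (t ⟨k, by omega⟩, t ⟨k + 1, h⟩) else 0)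
    else (if s = t then 1 else 0)

/-- The operator of a braid word on `n` strands: the letter `(k, true)` is `s_k`, the letter
`(k, false)` is its inverse; `P` and `Q` are the matrices of the two crossings. -/
def rep {ι : Type} [Fintype ι] [DecidableEq ι] (P Q : Matrix (ι × ι) (ι × ι) ℂ) (n : ℕ)
    (w : List (ℕ × Bool)) : Matrix (Fin n → ι) (Fin n → ι) ℂ :=
  (w.map fun g => gen (if g.2 then P else Q) n g.1).prod

/-- The partial trace over all strands but the first one, with weights `k`; `n + 1` strands. -/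
def tail {ι : Type} [Fintype ι] (k : ι → ℂ) (n : ℕ)
    (A : Matrix (Fin (n + 1) → ι) (Fin (n + 1) → ι) ℂ) : Matrix ι ι ℂ :=
  fun i j => ∑ s : Fin n → ι, (∏ x, k (s x)) * A (Fin.cons i s) (Fin.cons j s)

/-- The `N`-coloured Jones polynomial (unknot `= 1`) of the closure of the braid word `w` on
`n + 1` strands, at `q = v^2`: the entry at the highest weight vector `e_0` of the partial quantum
trace, with the weights `v^{N-1-2x}` of `K`. -/
noncomputable def cjones (N n : ℕ) (w : List (ℕ × Bool)) (v : ℂ) : ℂ :=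
  if h : 0 < N then
    tail (fun x : Fin N => v ^ ((N : ℤ) - 1 - 2 * (x : ℕ))) n
      (rep (crossP N v) (crossN N v) (n + 1) w) ⟨0, h⟩ ⟨0, h⟩ else 0

/-- The braid axis: strand `0` runs once around the strands `1`, `2` and `3`. -/
def axisWord : List (ℕ × Bool) :=
  [(0, true), (1, true), (2, true), (2, true), (1, true), (0, true)]

/-- The word on four strands of the link `L(w)`: the axis, and then the braid `w` on the strands
`1`, `2` and `3`.  In `w` the letters `(0, ·)` and `(1, ·)` are the generators `s_1` and `s_2`. -/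
def linkWord (w : List (ℕ × Bool)) : List (ℕ × Bool) := axisWord ++ w.map fun l => (l.1 + 1, l.2)

/-- `v_N = exp (π i / N)`, so that `q = v_N^2 = exp (2 π i / N)`. -/
noncomputable def root (N : ℕ) : ℂ := Complex.exp (Real.pi * Complex.I / N)

/-- The Kashaev invariant of `L(w)`. -/
noncomputable def kashaev (w : List (ℕ × Bool)) (N : ℕ) : ℂ := cjones N 3 (linkWord w) (root N)

/-- Lobachevsky's function `Λ(x) = -∫_0^x log |2 sin t| dt`. -/
noncomputable def Lob (x : ℝ) : ℝ := -∫ t in (0 : ℝ)..x, Real.log |2 * Real.sin t|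

/-- Volume of the regular ideal tetrahedron, `3 Λ(π/3) = 1.0149…`. -/
noncomputable def v3 : ℝ := 3 * Lob (Real.pi / 3)

/-! ### Words in `s_1⁻¹` and `s_2`

They are lists of truth values: `false` is `s_1⁻¹` and `true` is `s_2`. -/

/-- The word as a word in the braid group. -/
def toBraid (u : List Bool) : List (ℕ × Bool) := u.map fun b => (if b then 1 else 0, b)

/-- The dual word: read backwards, with the letters exchanged. -/
def dual (u : List Bool) : List Bool := (u.map Bool.not).reverse

/-- The word `(s_2 s_1⁻¹)^n`. -/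
def run : ℕ → List Bool
  | 0 => []
  | n + 1 => true :: false :: run n

/-- Powers of a word. -/
def power (u : List Bool) : ℕ → List Bool
  | 0 => []
  | k + 1 => u ++ power u k

/-- The word of a list of syllables: the syllable `(b, e)` is the letter `b`, repeated `e` times. -/
def spell (s : List (Bool × ℕ)) : List Bool := s.flatMap fun p => List.replicate p.2 p.1

/-- The exponents of the syllables are positive. -/
def IsSyl (s : List (Bool × ℕ)) : Prop := ∀ p ∈ s, 1 ≤ p.2

/-- The word `(w w*)^k` for `w = x (s_2 s_1⁻¹)^n y`; the words `x` and `y` are given by their syllables. -/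
def word (n k : ℕ) (x y : List (Bool × ℕ)) : List Bool :=
  power ((spell x ++ (run n ++ spell y)) ++ dual (spell x ++ (run n ++ spell y))) k

/-- `2 π log |⟨L⟩_N| / N` for the link `L` of the word `(w w*)^k` with its axis. -/
noncomputable def growth (n k : ℕ) (x y : List (Bool × ℕ)) (N : ℕ) : ℝ :=
  2 * Real.pi * (Real.log ‖kashaev (toBraid (word n k x y)) N‖ / N)

/-! ### Angle structures -/

/-- Letter number `i` of the periodic continuation of the word `u`. -/
def lett (u : List Bool) (i : ℤ) : Bool := u.getD (i % (u.length : ℤ)).toNat false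

/-- Layer number `i` (between the letters number `i` and `i + 1`) is a hinge layer. -/
def Hinge (u : List Bool) (i : ℤ) : Prop := lett u i ≠ lett u (i + 1)

instance (u : List Bool) (i : ℤ) : Decidable (Hinge u i) := by unfold Hinge; infer_instance

/-- First dihedral angle of the tetrahedra of layer `i`. -/
noncomputable def angX (u : List Bool) (w : ℤ → ℝ) (i : ℤ) : ℝ :=
  if Hinge u i then (w (i - 1) + w i - w (i + 1)) / 2 else (w (i - 1) + w (i + 1)) / 2

/-- Second dihedral angle of the tetrahedra of layer `i`. -/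
noncomputable def angY (u : List Bool) (w : ℤ → ℝ) (i : ℤ) : ℝ :=
  if Hinge u i then (-w (i - 1) + w i + w (i + 1)) / 2 else (2 * w i - w (i - 1) - w (i + 1)) / 2

/-- Third dihedral angle of the tetrahedra of layer `i`. -/
noncomputable def angZ (w : ℤ → ℝ) (i : ℤ) : ℝ := Real.pi - w i

/-- Angle structures on the layered triangulation: functions on the layers (periodic, the period is
the number of letters) with positive dihedral angles. -/
def IsAngle (u : List Bool) (w : ℤ → ℝ) : Prop :=
  (∀ i, w (i + u.length) = w i) ∧ ∀ i, 0 < angX u w i ∧ 0 < angY u w i ∧ 0 < angZ w i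

/-- The volume of an angle structure: two ideal tetrahedra in each layer, each of volume
`Λ(x) + Λ(y) + Λ(z)`. -/
noncomputable def angVol (u : List Bool) (w : ℤ → ℝ) : ℝ :=
  ∑ i ∈ range u.length, 2 * (Lob (angX u w i) + Lob (angY u w i) + Lob (angZ w i))

/-- The supremum of the volumes of the angle structures; by Casson and Rivin this is the hyperbolic
volume of the complement. -/
noncomputable def vol (u : List Bool) : ℝ := sSup {V : ℝ | ∃ w, IsAngle u w ∧ angVol u w = V}

/-! ### Checks of the definitions (not part of the result) -/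

/-- For `N = 2` the crossings satisfy the skein relation of the Jones polynomial. -/
theorem skein (v : ℂ) (hv : v ≠ 0) (h1 : br v 1 ≠ 0) :
    v ^ 2 • crossP 2 v - (v ^ 2)⁻¹ • crossN 2 v =
      (v - v⁻¹) • (1 : Matrix (Fin 2 × Fin 2) (Fin 2 × Fin 2) ℂ) :=
  Pool.Agent.H550R3.Jones.taskSanSkein v hv h1

/-- The two crossings are inverse to each other. -/
theorem cross_inverse (N : ℕ) (v : ℂ) (hv : v ≠ 0)
    (h : ∀ k : ℕ, 0 < k → k < N → br v k ≠ 0) :
    crossP N v * crossN N v = 1 ∧ crossN N v * crossP N v = 1 :=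
  Pool.Agent.H309R4.Jones.SanI.taskSanInv Pool.Agent.H345J.taskMod Pool.Agent.H345J.taskInv
    Pool.Agent.H559R3.J.taskCross N v ⟨hv, h⟩

/-- The Yang-Baxter equation, for every colour. -/
theorem yang_baxter (N : ℕ) (v : ℂ) (hv : v ≠ 0) (h : ∀ k : ℕ, 0 < k → k < N → br v k ≠ 0) :
    gen (crossP N v) 3 0 * gen (crossP N v) 3 1 * gen (crossP N v) 3 0 =
      gen (crossP N v) 3 1 * gen (crossP N v) 3 0 * gen (crossP N v) 3 1 :=
  Pool.Agent.H927R2.J.SanYB.taskSanYB Pool.Agent.H345J.taskMod Pool.Agent.H345J.taskInt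
    Pool.Agent.H345J.taskInv Pool.Agent.H667J.taskHex1 Pool.Agent.H22R3.J.taskNat
    Pool.Agent.H559R3.J.taskCross N v ⟨hv, h⟩

/-- Curls may be removed: the framing is normalised. -/
theorem curl (N : ℕ) (v : ℂ) (hv : v ≠ 0) (h : ∀ k : ℕ, 0 < k → k < N → br v k ≠ 0) :
    (fun i j => ∑ x : Fin N, v ^ ((N : ℤ) - 1 - 2 * (x : ℕ)) * crossP N v (i, x) (j, x)) =
      (1 : Matrix (Fin N) (Fin N) ℂ) ∧
    (fun i j => ∑ x : Fin N, v ^ ((N : ℤ) - 1 - 2 * (x : ℕ)) * crossN N v (i, x) (j, x)) =
      (1 : Matrix (Fin N) (Fin N) ℂ) :=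
  Pool.Agent.H105R3.JSan.taskSanCurl N v ⟨hv, h⟩

/-- The unknot has the value `1`. -/
theorem unknot (N : ℕ) (v : ℂ) (hN : 0 < N) (hv : v ≠ 0)
    (h : ∀ k : ℕ, 0 < k → k < N → br v k ≠ 0) :
    cjones N 0 [] v = 1 ∧ cjones N 1 [(0, true)] v = 1 ∧ cjones N 1 [(0, false)] v = 1 :=
  Pool.Agent.H309R4.Jones.SanU.taskSanUnknot N v hN ⟨hv, h⟩

/-- The coloured Jones polynomials of all `L(w)` are continuous at `v_N`, so that `kashaev w N` is the
value at `q = exp (2 π i / N)` in the usual sense. -/
theorem continuity : ∀ (N : ℕ) (w : List (ℕ × Bool)), 1 ≤ N →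
    ContinuousAt (cjones N 3 (linkWord w)) (root N) := by
  intro N w hN
  have hv : root N = EvenVol.v0 N := rfl
  rw [hv]
  refine Pool.Agent.H756R3.J.taskCont N (EvenVol.v0 N) (Complex.exp_ne_zero _) ?_ _ _
  intro k hk0 hkN
  exact Pool.Agent.W715.VC.br_ne (by omega) (by omega)

/-! ### Bridges -/

lemma cjones_eq (N n : ℕ) (w : List (ℕ × Bool)) (v : ℂ) :
    cjones N n w v = Pool.Agent.H550R3.Jones.cjones N n w v := rfl

lemma kashaev_norm {N : ℕ} (hN : 0 < N) (w : List (ℕ × Bool)) :
    ‖kashaev w N‖ = ‖(Pool.Agent.W715.VC.rep3 N w).trace‖ := by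
  unfold kashaev
  rw [cjones_eq]
  exact Pool.Agent.W715.VC.norm_cjones_axis hN w

lemma run_eq (n : ℕ) : run n = Pool.Agent.R807.TQ.pw 1 n := by
  induction n with
  | zero => rfl
  | succ n ih =>
    change true :: false :: run n = _
    rw [ih]
    rfl

lemma power_eq (u : List Bool) (k : ℕ) : power u k = Pool.Agent.R807.IN.pows u k := by
  induction k with
  | zero => rfl
  | succ k ih =>
    change u ++ power u k = _
    rw [ih]
    rfl

lemma word_eq (n k : ℕ) (x y : List (Bool × ℕ)) : word n k x y =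
    Pool.Agent.R807.IN.word 1 n k (Pool.Agent.U909.CI.fl x) (Pool.Agent.U909.CI.fl y) := by
  unfold word
  rw [power_eq, run_eq]
  rfl

lemma vol_eq (u : List Bool) : vol u = Pool.Agent.R807.IN.hV u := rfl

lemma v3_eq : v3 = 2 * GapVol.lob (Real.pi / 6) := by
  have h1 : v3 = 3 * GapVol.lob (Real.pi / 3) := rfl
  rw [h1, GapVol.lob_dup]

lemma tr_eq (n k : ℕ) (x y : List (Bool × ℕ)) {N : ℕ} (hN : 0 < N) :
    ‖kashaev (toBraid (word n k x y)) N‖ = Pool.Agent.U909.CK.tr n k x y N := by
  rw [kashaev_norm hN, word_eq]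
  rfl

lemma ne_of {n k : ℕ} {x y : List (Bool × ℕ)} {N : ℕ} (hN : 0 < N)
    (h : 0 < Pool.Agent.U909.CK.tr n k x y N) : kashaev (toBraid (word n k x y)) N ≠ 0 := by
  rw [← tr_eq n k x y hN] at h
  exact norm_pos_iff.1 h

lemma growth_eq (n k : ℕ) (x y : List (Bool × ℕ)) {N : ℕ} (hN : 0 < N) :
    growth n k x y N = 2 * Real.pi * (Real.log (Pool.Agent.U909.CK.tr n k x y N) / N) := by
  unfold growth
  rw [tr_eq n k x y hN]

/-- **Kashaev invariants along odd `N` and volume, uniformly in the exponents.**  For `n, k ≥ 1` and words `x`, `y`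
in `s_2`, `s_1⁻¹` with `s` syllables together (with arbitrary exponents `≥ 1`) let `L` be the closure of the
braid `(w w*)^k`, `w = x (s_2 s_1⁻¹)^n y`, together with its axis, let `vol` be the supremum of the volumes
of the angle structures on the layered triangulation of its complement, and let `a_N = J_N(L; e^{2 π i / N})`.
(1) `(8 n - 4) v_3 k ≤ vol ≤ (8 n + 4 s + 2) v_3 k + (58 s + 116) k`.
(2) If `8 s ≤ n`, then `a_N ≠ 0` for all large odd `N`, and for every `ε > 0` and all large odd `N` the
number `2 π log |a_N| / N` differs from `vol` by at most `130 k (s + 1) + ε`.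
(3) For all `S` and `δ > 0` there is `n_0` such that for all `n ≥ n_0`, `k ≥ 1` and `x`, `y` with `s ≤ S`: the
volume is positive, and for all large odd `N` the quotient of `2 π log |a_N| / N` and the volume
differs from `1` by at most `δ`. -/
theorem result :
    (∀ (n k : ℕ) (x y : List (Bool × ℕ)), 1 ≤ n → 1 ≤ k → IsSyl x → IsSyl y →
      (8 * n - 4) * v3 * k ≤ vol (word n k x y) ∧
      vol (word n k x y) ≤ (8 * n + 4 * (x.length + y.length : ℕ) + 2) * v3 * k +
        (58 * (x.length + y.length : ℕ) + 116) * k ∧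
      (8 * (x.length + y.length) ≤ n →
        (∀ᶠ N : ℕ in atTop, Odd N → kashaev (toBraid (word n k x y)) N ≠ 0) ∧
        ∀ ε : ℝ, 0 < ε → ∀ᶠ N : ℕ in atTop, Odd N →
          |growth n k x y N - vol (word n k x y)| ≤
            130 * k * ((x.length + y.length : ℕ) + 1) + ε)) ∧
    (∀ (S : ℕ) (δ : ℝ), 0 < δ → ∃ n0 : ℕ, 1 ≤ n0 ∧ ∀ n k : ℕ, n0 ≤ n → 1 ≤ k →
      ∀ x y : List (Bool × ℕ), IsSyl x → IsSyl y → x.length + y.length ≤ S →
        0 < vol (word n k x y) ∧
        ∀ᶠ N : ℕ in atTop, Odd N → |growth n k x y N / vol (word n k x y) - 1| ≤ δ) := by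
  refine ⟨fun n k x y hn hk hx hy => ⟨?_, ?_, fun hs => ⟨?_, fun ε hε => ?_⟩⟩, fun S δ hδ => ?_⟩
  · rw [vol_eq, word_eq, v3_eq]
    exact (Pool.Agent.U909.CI.vol_two n k hn hk x y).1
  · rw [vol_eq, word_eq, v3_eq]
    exact (Pool.Agent.U909.CI.vol_two n k hn hk x y).2
  · filter_upwards [Pool.Agent.U909.CK.comp n k hn hk hx hy hs one_pos, eventually_gt_atTop 0]
      with N h1 hN _
    exact ne_of hN h1.1
  · filter_upwards [Pool.Agent.U909.CK.comp n k hn hk hx hy hs hε, eventually_gt_atTop 0]
      with N h1 hN _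
    rw [growth_eq n k x y hN, vol_eq, word_eq]
    exact h1.2
  · obtain ⟨n0, h0, h1⟩ := Pool.Agent.U909.CK.ratio S hδ
    refine ⟨n0, h0, fun n k hn hk x y hx hy hxy => ?_⟩
    obtain ⟨h2, h3⟩ := h1 n k hn hk x y hx hy hxy
    rw [← word_eq, ← vol_eq] at h2
    refine ⟨h2, ?_⟩
    filter_upwards [h3, eventually_gt_atTop 0] with N h4 hN _
    have h5 := h4.2
    rw [← word_eq, ← vol_eq, ← growth_eq n k x y hN] at h5
    have h6 : growth n k x y N / vol (word n k x y) - 1 =
        (growth n k x y N - vol (word n k x y)) / vol (word n k x y) := by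
      field_simp
    rw [h6, abs_div, abs_of_pos h2, div_le_iff₀ h2]
    exact h5

end Pool.Agent.Results.MP_b30479_gt.UniformVolumeOdd
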